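import Mathlib

/-!
# A lower bound for search on the line with imperfect detection: the integral argument

The time spent bounds the number of visits to the points of an interval; the arithmetic-geometric
mean inequality turns this into a lower bound for the normalized costs.
-/

set_option autoImplicit false

open Set MeasureTheory Filter Topology
open scoped ENNReal NNReal

namespace Pool.Agent.Y904.LSG

/-- the image of a short time interval is small -/
lemma vol_image {S : ℝ → ℝ} (hS : ∀ s t : ℝ, |S s - S t| ≤ |s - t|) (a b : ℝ) :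
    volume (S '' Icc a b) ≤ ENNReal.ofReal (b - a) := by
  refine (Real.volume_le_diam _).trans ?_
  refine Metric.ediam_le ?_
  rintro _ ⟨x, hx, rfl⟩ _ ⟨y, hy, rfl⟩
  rw [edist_dist, Real.dist_eq]
  apply ENNReal.ofReal_le_ofReal
  refine (hS x y).trans ?_
  rw [abs_le]
  constructor <;> linarith [hx.1, hx.2, hy.1, hy.2]

lemma cont {S : ℝ → ℝ} (hS : ∀ s t : ℝ, |S s - S t| ≤ |s - t|) : Continuous S := by
  refine LipschitzWith.continuous (K := 1) (LipschitzWith.of_dist_le_mul fun x y => ?_)
  rw [Real.dist_eq, Real.dist_eq, NNReal.coe_one, one_mul]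
  exact hS x y

lemma meas_image {S : ℝ → ℝ} (hS : ∀ s t : ℝ, |S s - S t| ≤ |s - t|) (a b : ℝ) :
    MeasurableSet (S '' Icc a b) :=
  (isCompact_Icc.image (cont hS)).measurableSet

/-- the time intervals of the partition of `[1, e^T]` -/
noncomputable def Iv (T : ℝ) (M j : ℕ) : Set ℝ :=
  Icc (Real.exp (j * (T / M))) (Real.exp ((j + 1) * (T / M)))

lemma meas_Iv {S : ℝ → ℝ} (hS : ∀ s t : ℝ, |S s - S t| ≤ |s - t|) (T : ℝ) (M j : ℕ) :
    MeasurableSet (S '' Iv T M j) := meas_image hS _ _

/-- the weighted number of time intervals in which a point is visited -/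
noncomputable def ff (S : ℝ → ℝ) (T : ℝ) (M : ℕ) (H : ℝ) : ℝ≥0∞ :=
  ∑ j ∈ Finset.range M, (S '' Iv T M j).indicator
    (fun _ => ENNReal.ofReal (Real.exp (-(j * (T / M))))) H

lemma ff_meas {S : ℝ → ℝ} (hS : ∀ s t : ℝ, |S s - S t| ≤ |s - t|) (T : ℝ) (M : ℕ) :
    Measurable (ff S T M) := by
  unfold ff
  exact Finset.measurable_fun_sum _ fun j _ => measurable_const.indicator (meas_Iv hS T M j)

lemma ff_int {S : ℝ → ℝ} (hS : ∀ s t : ℝ, |S s - S t| ≤ |s - t|) {T : ℝ} {M : ℕ}
    (hM : 0 < M) : ∫⁻ H, ff S T M H ≤ ENNReal.ofReal (T * Real.exp (T / M)) := by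
  have hM' : (0 : ℝ) < M := by exact_mod_cast hM
  unfold ff
  rw [lintegral_finsetSum _ fun j _ => measurable_const.indicator (meas_Iv hS T M j)]
  have h1 : ∀ j ∈ Finset.range M, ∫⁻ H, (S '' Iv T M j).indicator
      (fun _ => ENNReal.ofReal (Real.exp (-(j * (T / M))))) H ≤
      ENNReal.ofReal (Real.exp (T / M) - 1) := by
    intro j _
    rw [lintegral_indicator (meas_Iv hS T M j), lintegral_const, Measure.restrict_apply
      MeasurableSet.univ, univ_inter]
    refine (mul_le_mul_right (vol_image hS _ _) _).trans ?_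
    rw [← ENNReal.ofReal_mul (Real.exp_pos _).le]
    apply ENNReal.ofReal_le_ofReal
    rw [mul_sub, ← Real.exp_add, ← Real.exp_add]
    have e1 : -(j * (T / M)) + (j + 1) * (T / M) = T / M := by ring
    have e2 : -(j * (T / M)) + j * (T / M) = 0 := by ring
    rw [e1, e2, Real.exp_zero]
  refine (Finset.sum_le_sum h1).trans ?_
  rw [Finset.sum_const, Finset.card_range, nsmul_eq_mul, ← ENNReal.ofReal_natCast,
    ← ENNReal.ofReal_mul hM'.le]
  apply ENNReal.ofReal_le_ofReal
  have h2 : Real.exp (T / M) - 1 ≤ T / M * Real.exp (T / M) := by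
    have h3 := Real.one_sub_le_exp_neg (T / M)
    have h4 := Real.exp_pos (T / M)
    have h5 : Real.exp (-(T / M)) * Real.exp (T / M) = 1 := by
      rw [← Real.exp_add, neg_add_cancel, Real.exp_zero]
    nlinarith
  calc (M : ℝ) * (Real.exp (T / M) - 1) ≤ M * (T / M * Real.exp (T / M)) :=
        mul_le_mul_of_nonneg_left h2 hM'.le
    _ = T * Real.exp (T / M) := by field_simp

lemma ff_liminf {S : ℝ → ℝ} (hS : ∀ s t : ℝ, |S s - S t| ≤ |s - t|) (T : ℝ) :
    ∫⁻ H, liminf (fun M : ℕ => ff S T M H) atTop ≤ ENNReal.ofReal T := by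
  refine (lintegral_liminf_le fun M => ff_meas hS T M).trans ?_
  have h1 : Tendsto (fun M : ℕ => ENNReal.ofReal (T * Real.exp (T / M))) atTop
      (𝓝 (ENNReal.ofReal T)) := by
    apply ENNReal.tendsto_ofReal
    have h2 : Tendsto (fun M : ℕ => T / (M : ℝ)) atTop (𝓝 0) :=
      tendsto_const_nhds.div_atTop tendsto_natCast_atTop_atTop
    have h3 := (Real.continuous_exp.tendsto 0).comp h2
    rw [Real.exp_zero] at h3
    simpa using h3.const_mul T
  refine le_trans (liminf_le_liminf ?_) h1.liminf_eq.le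
  filter_upwards [eventually_gt_atTop 0] with M hM
  exact ff_int hS hM

/-- distinct visit times lie in distinct intervals of a fine partition -/
lemma sum_le_ff {S : ℝ → ℝ} {T : ℝ} (hT : 0 < T) {H : ℝ} {J : Finset ℕ} {t : ℕ → ℝ}
    (ht : StrictMonoOn t J) (h1 : ∀ i ∈ J, 1 ≤ t i) (h2 : ∀ i ∈ J, t i < Real.exp T)
    (hH : ∀ i ∈ J, S (t i) = H) :
    ENNReal.ofReal (∑ i ∈ J, 1 / t i) ≤ liminf (fun M : ℕ => ff S T M H) atTop := by
  -- the gap
  have hgap : ∃ δ : ℝ, 0 < δ ∧ ∀ i ∈ J, ∀ j ∈ J, i < j → Real.log (t i) + δ ≤ Real.log (t j) := by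
    rcases (J ×ˢ J).filter (fun x => x.1 < x.2) |>.eq_empty_or_nonempty with he | hne
    · refine ⟨1, one_pos, fun i hi j hj hij => ?_⟩
      have : (i, j) ∈ (J ×ˢ J).filter (fun x => x.1 < x.2) := by
        simp [hi, hj, hij]
      rw [he] at this
      simp at this
    · obtain ⟨x, hx, hmin⟩ := Finset.exists_min_image _
        (fun x : ℕ × ℕ => Real.log (t x.2) - Real.log (t x.1)) hne
      rw [Finset.mem_filter, Finset.mem_product] at hx
      refine ⟨Real.log (t x.2) - Real.log (t x.1), ?_, fun i hi j hj hij => ?_⟩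
      · have h3 := ht hx.1.1 hx.1.2 hx.2
        have h4 := h1 _ hx.1.1
        have h5 := Real.log_lt_log (by linarith) h3
        linarith
      · have := hmin (i, j) (by simp [hi, hj, hij])
        simp only at this
        linarith
  obtain ⟨δ, hδ, hgap⟩ := hgap
  obtain ⟨M0, hM0⟩ := exists_nat_gt (T / δ)
  refine le_liminf_of_le (by isBoundedDefault) ?_
  filter_upwards [eventually_ge_atTop (max M0 1)] with M hM
  have hM1 : 0 < M := by have := le_max_right M0 1; omega
  have hM' : (0 : ℝ) < M := by exact_mod_cast hM1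
  have hMδ : T / M < δ := by
    have : (M0 : ℝ) ≤ M := by exact_mod_cast (le_max_left _ _).trans hM
    rw [div_lt_iff₀ hδ] at hM0
    rw [div_lt_iff₀ hM']
    nlinarith
  set h : ℝ := T / M with hh
  have hh0 : 0 < h := by positivity
  set c : ℕ → ℕ := fun i => ⌊Real.log (t i) / h⌋₊ with hc
  have hlog0 : ∀ i ∈ J, 0 ≤ Real.log (t i) := fun i hi => Real.log_nonneg (h1 i hi)
  have hc1 : ∀ i ∈ J, (c i : ℝ) * h ≤ Real.log (t i) := by
    intro i hi
    have := Nat.floor_le (a := Real.log (t i) / h) (div_nonneg (hlog0 i hi) hh0.le)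
    rwa [le_div_iff₀ hh0] at this
  have hc2 : ∀ i ∈ J, Real.log (t i) < ((c i : ℝ) + 1) * h := by
    intro i hi
    have := Nat.lt_floor_add_one (Real.log (t i) / h)
    rwa [div_lt_iff₀ hh0] at this
  have hcM : ∀ i ∈ J, c i < M := by
    intro i hi
    have h3 : Real.log (t i) < T := by
      rw [Real.log_lt_iff_lt_exp (by linarith [h1 i hi])]
      exact h2 i hi
    have h4 : (c i : ℝ) * h < M * h := by
      have : (M : ℝ) * h = T := by rw [hh]; field_simp
      rw [this]
      exact (hc1 i hi).trans_lt h3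
    exact_mod_cast lt_of_mul_lt_mul_right h4 hh0.le
  have hcmono : StrictMonoOn c J := by
    intro i hi j hj hij
    have h3 := hgap i hi j hj hij
    have h4 := hc2 j hj
    have h5 := hc1 i hi
    have h6 : ((c i : ℝ) + 1) * h < ((c j : ℝ) + 1) * h := by nlinarith
    have h7 : (c i : ℝ) + 1 < c j + 1 := lt_of_mul_lt_mul_right h6 hh0.le
    exact_mod_cast (by linarith : (c i : ℝ) < c j)
  have hinj : Set.InjOn c J := hcmono.injOn
  rw [ENNReal.ofReal_sum_of_nonneg fun i hi => by have := h1 i hi; positivity]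
  calc ∑ i ∈ J, ENNReal.ofReal (1 / t i)
      ≤ ∑ i ∈ J, (S '' Iv T M (c i)).indicator
        (fun _ => ENNReal.ofReal (Real.exp (-((c i : ℝ) * (T / M))))) H := by
        refine Finset.sum_le_sum fun i hi => ?_
        have hti : 0 < t i := by linarith [h1 i hi]
        have hmem : H ∈ S '' Iv T M (c i) := by
          refine ⟨t i, ⟨?_, ?_⟩, hH i hi⟩
          · rw [← Real.le_log_iff_exp_le hti]
            exact hc1 i hi
          · rw [← Real.log_le_iff_le_exp hti]
            exact (hc2 i hi).le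
        rw [indicator_of_mem hmem]
        apply ENNReal.ofReal_le_ofReal
        rw [Real.exp_neg, one_div]
        apply inv_anti₀ (Real.exp_pos _)
        rw [← Real.le_log_iff_exp_le hti]
        exact hc1 i hi
    _ = ∑ j ∈ J.image c, (S '' Iv T M j).indicator
        (fun _ => ENNReal.ofReal (Real.exp (-((j : ℝ) * (T / M))))) H := by
        rw [Finset.sum_image hinj]
    _ ≤ ff S T M H := by
        unfold ff
        refine Finset.sum_le_sum_of_subset fun j hj => ?_
        rw [Finset.mem_image] at hj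
        obtain ⟨i, hi, rfl⟩ := hj
        exact Finset.mem_range.2 (hcM i hi)

/-- the weight of the annulus -/
lemma annulus {R : ℝ} (hR : 0 < R) :
    ∫⁻ H in {H : ℝ | 1 < |H| ∧ |H| < Real.exp R}, ENNReal.ofReal (1 / |H|) =
      ENNReal.ofReal (2 * R) := by
  have hpos : ∫⁻ H in Ioo (1 : ℝ) (Real.exp R), ENNReal.ofReal (1 / |H|) = ENNReal.ofReal R := by
    have hB : (1 : ℝ) ≤ Real.exp R := Real.one_le_exp hR.le
    have h1 : ∫ x in (1 : ℝ)..(Real.exp R), x⁻¹ = R := by
      rw [integral_inv_of_pos one_pos (Real.exp_pos R), div_one, Real.log_exp]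
    rw [intervalIntegral.integral_of_le hB, integral_Ioc_eq_integral_Ioo] at h1
    have h2 : IntegrableOn (fun x : ℝ => x⁻¹) (Ioo 1 (Real.exp R)) := by
      have h3 : IntervalIntegrable (fun x : ℝ => x⁻¹) volume 1 (Real.exp R) := by
        refine ContinuousOn.intervalIntegrable ?_
        rw [uIcc_of_le hB]
        exact continuousOn_inv₀.mono fun x hx => by
          have := hx.1
          simp only [mem_compl_iff, mem_singleton_iff]
          linarith
      rw [intervalIntegrable_iff_integrableOn_Ioo_of_le hB] at h3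
      exact h3
    have h4 : ENNReal.ofReal R = ENNReal.ofReal (∫ x in Ioo (1 : ℝ) (Real.exp R), x⁻¹) := by
      rw [h1]
    rw [h4, ofReal_integral_eq_lintegral_ofReal h2]
    · refine setLIntegral_congr_fun
        (measurableSet_Ioo : MeasurableSet (Ioo (1 : ℝ) (Real.exp R))) fun x hx => ?_
      rw [abs_of_pos (by linarith [hx.1]), one_div]
    · rw [EventuallyLE, ae_restrict_iff' measurableSet_Ioo]
      refine Eventually.of_forall fun x hx => ?_
      have := hx.1
      simp only [Pi.zero_apply]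
      exact inv_nonneg.2 (by linarith)
  have hneg : ∫⁻ H in Ioo (-(Real.exp R)) (-1 : ℝ), ENNReal.ofReal (1 / |H|) =
      ENNReal.ofReal R := by
    rw [← hpos, ← lintegral_indicator measurableSet_Ioo, ← lintegral_indicator measurableSet_Ioo,
      ← lintegral_neg_eq_self]
    refine lintegral_congr fun x => ?_
    by_cases hx : x ∈ Ioo (1 : ℝ) (Real.exp R)
    · have hx' : -x ∈ Ioo (-(Real.exp R)) (-1 : ℝ) := ⟨by linarith [hx.2], by linarith [hx.1]⟩
      rw [indicator_of_mem hx, indicator_of_mem hx', abs_neg]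
    · have hx' : -x ∉ Ioo (-(Real.exp R)) (-1 : ℝ) := fun h =>
        hx ⟨by linarith [h.2], by linarith [h.1]⟩
      rw [indicator_of_notMem hx, indicator_of_notMem hx']
  have hset : {H : ℝ | 1 < |H| ∧ |H| < Real.exp R} =
      Ioo (1 : ℝ) (Real.exp R) ∪ Ioo (-(Real.exp R)) (-1 : ℝ) := by
    ext H
    constructor
    · rintro ⟨h1, h2⟩
      rcases le_or_gt 0 H with h | h
      · rw [abs_of_nonneg h] at h1 h2
        exact Or.inl ⟨h1, h2⟩
      · rw [abs_of_neg h] at h1 h2
        exact Or.inr ⟨by linarith, by linarith⟩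
    · rintro (⟨h1, h2⟩ | ⟨h1, h2⟩)
      · refine ⟨?_, ?_⟩ <;> rw [abs_of_pos (by linarith)] <;> assumption
      · refine ⟨?_, ?_⟩ <;> rw [abs_of_neg (by linarith)] <;> linarith
  have hdisj : Disjoint (Ioo (1 : ℝ) (Real.exp R)) (Ioo (-(Real.exp R)) (-1 : ℝ)) := by
    rw [Set.disjoint_left]
    intro x hx hx'
    linarith [hx.1, hx'.2]
  rw [hset, lintegral_union measurableSet_Ioo hdisj, hpos, hneg,
    ← ENNReal.ofReal_add hR.le hR.le]
  congr 1
  ring

/-- **The lower bound for finitely many visits.** -/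
theorem low_fin {S : ℝ → ℝ} (hS : ∀ s t : ℝ, |S s - S t| ≤ |s - t|) (hS0 : S 0 = 0)
    (P : ℕ → ℝ) (K : ℕ) (hP : ∀ i < K, 0 < P i) (v : ℝ) (hv : 0 ≤ v) (t : ℝ → ℕ → ℝ)
    (ht0 : ∀ H : ℝ, H ≠ 0 → ∀ i < K, 0 ≤ t H i)
    (htm : ∀ H : ℝ, H ≠ 0 → StrictMono (t H))
    (htS : ∀ H : ℝ, H ≠ 0 → ∀ i < K, S (t H i) = H)
    (hcost : ∀ H : ℝ, H ≠ 0 → ∑ i ∈ Finset.range K, P i * t H i ≤ v * |H|) :
    2 * (∑ i ∈ Finset.range K, √(P i)) ^ 2 ≤ v := by
  set σ : ℝ := ∑ i ∈ Finset.range K, √(P i) with hσ
  have hσ0 : 0 ≤ σ := Finset.sum_nonneg fun i _ => Real.sqrt_nonneg _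
  rcases hσ0.eq_or_lt with h0 | hσpos
  · rw [← h0]
    simpa using hv
  set μ : ℝ := 4 * σ ^ 2 with hμ
  -- the cut-off
  set L : ℝ := 1 + ∑ i ∈ Finset.range K, 4 * σ / √(P i) with hL
  have hL1 : 1 ≤ L := by
    have : 0 ≤ ∑ i ∈ Finset.range K, 4 * σ / √(P i) :=
      Finset.sum_nonneg fun i _ => by positivity
    linarith
  have hLi : ∀ i < K, 4 * σ / √(P i) ≤ L := by
    intro i hi
    have h1 := Finset.single_le_sum (f := fun i => 4 * σ / √(P i))
      (fun j _ => by positivity) (Finset.mem_range.2 hi)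
    linarith
  -- the main inequality for a fixed range
  have key : ∀ R : ℝ, 0 < R → 4 * σ ^ 2 * (2 * R) ≤ v * (2 * R) + μ * (R + Real.log L) := by
    intro R hR
    set T : ℝ := R + Real.log L with hT
    have hT0 : 0 < T := by
      have := Real.log_nonneg hL1
      linarith
    set X : Set ℝ := {H : ℝ | 1 < |H| ∧ |H| < Real.exp R} with hX
    have hXm : MeasurableSet X := by
      rw [hX]
      exact ((isOpen_lt continuous_const continuous_abs).inter
        (isOpen_lt continuous_abs continuous_const)).measurableSet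
    -- pointwise
    have hpt : ∀ H ∈ X, ENNReal.ofReal (4 * σ ^ 2) * ENNReal.ofReal (1 / |H|) ≤
        ENNReal.ofReal v * ENNReal.ofReal (1 / |H|) +
          ENNReal.ofReal μ * liminf (fun M : ℕ => ff S T M H) atTop := by
      rintro H ⟨hH1, hH2⟩
      have hHne : H ≠ 0 := by
        rintro rfl
        rw [abs_zero] at hH1
        linarith
      have ha : 0 < |H| := by linarith
      have hlow : ∀ i < K, |H| ≤ t H i := by
        intro i hi
        have h1 := hS (t H i) 0
        rw [htS H hHne i hi, hS0, sub_zero, sub_zero, abs_of_nonneg (ht0 H hHne i hi)] at h1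
        exact h1
      set J : Finset ℕ := (Finset.range K).filter (fun i => t H i ≤ L * |H|) with hJ
      have hJK : ∀ i ∈ J, i < K := fun i hi => Finset.mem_range.1 (Finset.mem_filter.1 hi).1
      have hff := sum_le_ff (S := S) (T := T) hT0 (H := H) (J := J) (t := t H)
        ((htm H hHne).strictMonoOn _) (fun i hi => by
          have := hlow i (hJK i hi)
          linarith) (fun i hi => by
          have h1 : t H i ≤ L * |H| := (Finset.mem_filter.1 hi).2
          have h2 : L * |H| < L * Real.exp R := mul_lt_mul_of_pos_left hH2 (by linarith)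
          have h3 : Real.exp T = L * Real.exp R := by
            rw [hT, Real.exp_add, Real.exp_log (by linarith)]
            ring
          rw [h3]
          linarith) (fun i hi => htS H hHne i (hJK i hi))
      -- each term
      have hterm : ∀ i ∈ Finset.range K, 2 * (√(P i) * (2 * σ)) / |H| ≤
          P i * t H i / |H| ^ 2 + (if t H i ≤ L * |H| then μ * (1 / t H i) else 0) := by
        intro i hi
        have hi' := Finset.mem_range.1 hi
        have hPi := hP i hi'
        have hti := hlow i hi'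
        have hti0 : 0 < t H i := by linarith
        have hsq : √(P i) ^ 2 = P i := Real.sq_sqrt hPi.le
        split_ifs with hc
        · have h1 : 0 ≤ (√(P i) * t H i - 2 * σ * |H|) ^ 2 / (t H i * |H| ^ 2) := by positivity
          have h2 : (√(P i) * t H i - 2 * σ * |H|) ^ 2 / (t H i * |H| ^ 2) =
              P i * t H i / |H| ^ 2 + μ * (1 / t H i) - 2 * (√(P i) * (2 * σ)) / |H| := by
            rw [hμ]
            obtain ⟨s, hs⟩ : ∃ s, s = √(P i) := ⟨_, rfl⟩
            rw [← hs] at hsq ⊢
            rw [← hsq]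
            field_simp
            ring
          linarith
        · rw [not_le] at hc
          rw [add_zero, div_le_div_iff₀ ha (by positivity)]
          have h3 := hLi i hi'
          have hs0 : 0 < √(P i) := Real.sqrt_pos.2 hPi
          rw [div_le_iff₀ hs0] at h3
          have h4 : 4 * σ * |H| ≤ √(P i) * t H i := by
            calc 4 * σ * |H| ≤ L * √(P i) * |H| := mul_le_mul_of_nonneg_right h3 ha.le
              _ = √(P i) * (L * |H|) := by ring
              _ ≤ √(P i) * t H i := mul_le_mul_of_nonneg_left hc.le hs0.le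
          have h5 : 2 * (√(P i) * (2 * σ)) * |H| ≤ P i * t H i := by
            calc 2 * (√(P i) * (2 * σ)) * |H| = √(P i) * (4 * σ * |H|) := by ring
              _ ≤ √(P i) * (√(P i) * t H i) := mul_le_mul_of_nonneg_left h4 hs0.le
              _ = √(P i) ^ 2 * t H i := by ring
              _ = P i * t H i := by rw [hsq]
          calc 2 * (√(P i) * (2 * σ)) * |H| ^ 2 = 2 * (√(P i) * (2 * σ)) * |H| * |H| := by ring
            _ ≤ P i * t H i * |H| := mul_le_mul_of_nonneg_right h5 ha.le
      have hsum := Finset.sum_le_sum hterm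
      rw [Finset.sum_add_distrib, ← Finset.sum_filter, ← Finset.sum_div, ← Finset.sum_div,
        ← Finset.mul_sum, ← Finset.sum_mul, ← Finset.mul_sum, ← hσ, ← hJ] at hsum
      have h6 : (∑ i ∈ Finset.range K, P i * t H i) / |H| ^ 2 ≤ v * (1 / |H|) := by
        rw [div_le_iff₀ (by positivity)]
        refine (hcost H hHne).trans (le_of_eq ?_)
        field_simp
      have h7 : 4 * σ ^ 2 * (1 / |H|) ≤ v * (1 / |H|) + μ * ∑ i ∈ J, 1 / t H i := by
        calc 4 * σ ^ 2 * (1 / |H|) = 2 * (σ * (2 * σ)) / |H| := by ring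
          _ ≤ _ := hsum
          _ ≤ _ := by linarith
      have hJ0 : 0 ≤ ∑ i ∈ J, 1 / t H i := Finset.sum_nonneg fun i hi => by
        have := hlow i (hJK i hi)
        have : 0 < t H i := by linarith
        positivity
      have hμ0 : 0 ≤ μ := by positivity
      calc ENNReal.ofReal (4 * σ ^ 2) * ENNReal.ofReal (1 / |H|)
          = ENNReal.ofReal (4 * σ ^ 2 * (1 / |H|)) := (ENNReal.ofReal_mul (by positivity)).symm
        _ ≤ ENNReal.ofReal (v * (1 / |H|) + μ * ∑ i ∈ J, 1 / t H i) :=
            ENNReal.ofReal_le_ofReal h7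
        _ = ENNReal.ofReal v * ENNReal.ofReal (1 / |H|) +
            ENNReal.ofReal μ * ENNReal.ofReal (∑ i ∈ J, 1 / t H i) := by
            rw [ENNReal.ofReal_add (by positivity) (by positivity), ENNReal.ofReal_mul hv,
              ENNReal.ofReal_mul hμ0]
        _ ≤ _ := by gcongr
    have hmeas1 : Measurable fun H : ℝ => ENNReal.ofReal (1 / |H|) := by fun_prop
    have hint : ENNReal.ofReal (4 * σ ^ 2) * ENNReal.ofReal (2 * R) ≤
        ENNReal.ofReal v * ENNReal.ofReal (2 * R) + ENNReal.ofReal μ * ENNReal.ofReal T := by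
      have h1 : ∫⁻ H in X, ENNReal.ofReal (4 * σ ^ 2) * ENNReal.ofReal (1 / |H|) ≤
          ∫⁻ H in X, (ENNReal.ofReal v * ENNReal.ofReal (1 / |H|) +
            ENNReal.ofReal μ * liminf (fun M : ℕ => ff S T M H) atTop) :=
        setLIntegral_mono' hXm hpt
      rw [lintegral_const_mul _ hmeas1, lintegral_add_left (hmeas1.const_mul _),
        lintegral_const_mul _ hmeas1, lintegral_const_mul _
          (Measurable.liminf fun M => ff_meas hS T M), hX, annulus hR] at h1
      refine h1.trans ?_
      gcongr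
      exact (setLIntegral_le_lintegral _ _).trans (ff_liminf hS T)
    rw [← ENNReal.ofReal_mul (by positivity), ← ENNReal.ofReal_mul hv,
      ← ENNReal.ofReal_mul (by positivity), ← ENNReal.ofReal_add (by positivity) (by positivity),
      ENNReal.ofReal_le_ofReal_iff (by positivity)] at hint
    exact hint
  -- the limit
  by_contra hcon
  rw [not_le] at hcon
  set d : ℝ := 2 * σ ^ 2 - v with hd
  have hd0 : 0 < d := by linarith
  have hlog : 0 ≤ Real.log L := Real.log_nonneg hL1
  have hk := key (μ * (Real.log L + 1) / d) (by positivity)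
  have hmu0 : 0 < μ := by positivity
  have e1 : μ * (Real.log L + 1) / d * d = μ * (Real.log L + 1) := by field_simp
  rw [hμ] at hk
  nlinarith [mul_pos hmu0 hd0, mul_pos hmu0 hmu0]

end Pool.Agent.Y904.LSG
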